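import Pool.Agent.K3h53.FM.Int

/-!
# MP_90787a_nt: the number of maps with many preperiodic points, for all degrees `d ≥ 2`

For all `D`, `B`, `d ≥ 2` and `ε > 0` there are `N` and `C` such that at most `C |S| ^ 4 X ^ ε` of the `|S| ^ (2 d + 2)`
pairs of binary forms of degree `d` with coefficients in a finite set `S` of algebraic numbers define an endomorphism of the
projective line, of height at most `X` over a number field `K` of degree at most `D`, which has more than `N` preperiodic
points of degree at most `B` over `K`.  In particular, at most `C H ^ (4 + ε)` of the `(2 H + 1) ^ (2 d + 2)` pairs of forms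
with integral coefficients of absolute value at most `H` define an endomorphism which has more than `N` preperiodic points
of degree at most `B` over `ℚ`.

Proof.  The exceptional maps lie in at most `C X ^ ε` conjugacy classes (`FewExceptionalClasses`,
`SymmetricPowersFewClasses`).  A conjugacy class, together with the multiples of its members, is the image of the space of
`2 × 2`-matrices under a polynomial map of degree `d + 1`; if the image of a polynomial map `k ^ r → k ^ n` of degree `e`
contains `m` points of a grid `S ^ n`, then `m ≤ (e n (|S| - 1) + 1) ^ r`, since the polynomials of degree `n (|S| - 1)` which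
separate the points can be pulled back.
-/

set_option autoImplicit false

namespace Pool.Agent.Results.MP_90787a_nt.FewExceptionalMaps

/-- The algebraic numbers. -/
abbrev Qbar : Type := AlgebraicClosure ℚ

variable {d : ℕ}

/-- The value at `v` of the pair `F` of binary forms of degree `d`: `F i j` is the coefficient of `x ^ j y ^ (d - j)` in the
`i`-th form. -/
def act {K : Type} [Field K] (F : Fin 2 → Fin (d + 1) → K) (v : Fin 2 → K) : Fin 2 → K :=
  fun i => ∑ j : Fin (d + 1), F i j * v 0 ^ (j : ℕ) * v 1 ^ (d - (j : ℕ))

/-- The two forms have no common zero in the projective line over the algebraic numbers: they define an endomorphism of the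
projective line of degree `d`. -/
def IsEndomorphism (F : Fin 2 → Fin (d + 1) → Qbar) : Prop := ∀ v : Fin 2 → Qbar, act F v = 0 → v = 0

/-- The height over `K` (relative, multiplicative) of the point of projective space given by the coefficients. -/
noncomputable def height {K : Type} [Field K] [NumberField K] (F : Fin 2 → Fin (d + 1) → K) : ℝ :=
  Height.mulHeight (fun p : Fin 2 × Fin (d + 1) => F p.1 p.2)

/-- The set of the preperiodic points `P` in the projective line over the algebraic numbers (the `n`-th and the `m`-th iterate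
at `P` agree for some `m < n`) with `[K(P) : K] ≤ B`: `P` has coordinates in an extension of `K` of degree at most `B`.
For `K = ⊥` these are the preperiodic points of degree at most `B` over `ℚ`. -/
def preperiodicOfDegree (B : ℕ) (K : IntermediateField ℚ Qbar) (F : Fin 2 → Fin (d + 1) → Qbar) :
    Set (Projectivization Qbar (Fin 2 → Qbar)) :=
  {P | (∃ m n : ℕ, m < n ∧ ∃ c : Qbar, c ≠ 0 ∧ (act F)^[n] P.rep = c • (act F)^[m] P.rep) ∧
    ∃ E : IntermediateField ℚ Qbar, K ≤ E ∧ FiniteDimensional ℚ E ∧
      Module.finrank ℚ E ≤ B * Module.finrank ℚ K ∧ ∃ w : Fin 2 → Qbar, (∀ l, w l ∈ E) ∧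
      ∃ c : Qbar, c ≠ 0 ∧ P.rep = c • w}

/-- `F` defines an endomorphism of the projective line over a number field `K` of degree at most `D`, of height at most `X`,
which has more than `N` preperiodic points of degree at most `B` over `K`. -/
def Exceptional (D B N X : ℕ) (F : Fin 2 → Fin (d + 1) → Qbar) : Prop :=
  IsEndomorphism F ∧
    ∃ (K : IntermediateField ℚ Qbar) (_ : NumberField K) (F' : Fin 2 → Fin (d + 1) → K),
      (∀ i j, F i j = (F' i j : Qbar)) ∧ Module.finrank ℚ K ≤ D ∧ height F' ≤ X ∧
      (N : ℕ∞) < (preperiodicOfDegree B K F).encard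

/-- The pair of integral forms as a pair of forms over the algebraic numbers. -/
noncomputable def ext (F : Fin 2 → Fin (d + 1) → ℤ) : Fin 2 → Fin (d + 1) → Qbar := fun i j => (F i j : Qbar)

/-- The pairs of forms with integral coefficients of absolute value at most `H` which define an endomorphism of the projective
line with more than `N` preperiodic points of degree at most `B` over `ℚ`. -/
def integralExceptional (d B N H : ℕ) : Set (Fin 2 → Fin (d + 1) → ℤ) :=
  {F | (∀ i j, |F i j| ≤ (H : ℤ)) ∧ IsEndomorphism (ext F) ∧ (N : ℕ∞) < (preperiodicOfDegree B ⊥ (ext F)).encard}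

/-- **The number of exceptional maps.**  The sets which are counted are subsets of finite boxes. -/
theorem result (D B d : ℕ) (hd : 2 ≤ d) (ε : ℝ) (hε : 0 < ε) : ∃ (N : ℕ) (C : ℝ),
    (∀ X : ℕ, 1 ≤ X → ∀ S : Finset Qbar,
      (({F | (∀ i j, F i j ∈ S) ∧ Exceptional D B N X F} :
        Set (Fin 2 → Fin (d + 1) → Qbar)).ncard : ℝ) ≤ C * (S.card : ℝ) ^ 4 * (X : ℝ) ^ ε) ∧
    (∀ H : ℕ, 1 ≤ H → ((integralExceptional d B N H).ncard : ℝ) ≤ C * (H : ℝ) ^ (4 + ε)) := by
  classical
  obtain ⟨N₁, C₁, hC₁, h₁⟩ := Pool.Agent.K3h53.FM.count D B d hd ε hε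
  obtain ⟨N₂, C₂, hC₂, h₂⟩ := Pool.Agent.K3h53.FM.count_int B d hd ε hε
  refine ⟨max N₁ N₂, max C₁ C₂, fun X hX S => ?_, fun H hH => ?_⟩
  · have hf : ({F | (∀ i j, F i j ∈ S) ∧ Exceptional D B (max N₁ N₂) X F} :
        Set (Fin 2 → Fin (d + 1) → Qbar)).Finite := by
      refine (Set.Finite.pi' (ι := Fin 2)
        (t := fun _ => {g : Fin (d + 1) → Qbar | ∀ j, g j ∈ (S : Set Qbar)})
        fun _ => Set.Finite.pi' fun _ => S.finite_toSet).subset ?_
      intro F hF i j
      exact hF.1 i j
    rw [Set.ncard_eq_toFinset_card _ hf]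
    refine ((h₁ X hX S hf.toFinset fun F hF => ?_).1 fun F hF => ?_).trans ?_
    · obtain ⟨-, h0, K, hK, F', e1, e2, e3, e4⟩ := hf.mem_toFinset.1 hF
      exact ⟨h0, K, hK, F', e1, e2, e3, lt_of_le_of_lt (by exact_mod_cast le_max_left N₁ N₂) e4⟩
    · exact (hf.mem_toFinset.1 hF).1
    · gcongr
      exact le_max_left _ _
  · have hf : (integralExceptional d B (max N₁ N₂) H).Finite := by
      refine (Set.Finite.pi' (ι := Fin 2)
        (t := fun _ => {g : Fin (d + 1) → ℤ | ∀ j, g j ∈ Set.Icc (-(H : ℤ)) H})
        fun _ => Set.Finite.pi' fun _ => Set.finite_Icc _ _).subset ?_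
      intro F hF i j
      exact abs_le.1 (hF.1 i j)
    rw [Set.ncard_eq_toFinset_card _ hf]
    refine (h₂ H hH hf.toFinset fun F hF => ?_).1.trans ?_
    · obtain ⟨e1, e2, e3⟩ := hf.mem_toFinset.1 hF
      exact ⟨e1, e2, lt_of_le_of_lt (by exact_mod_cast le_max_right N₁ N₂) e3⟩
    · gcongr
      exact le_max_right _ _

end Pool.Agent.Results.MP_90787a_nt.FewExceptionalMaps
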