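import Pool.Agent.K3h53.FM.Lead

/-!
# MP_90787a_nt: few polynomials with given two leading coefficients have many preperiodic points

For all `D`, `B`, `d ≥ 2` and `ε > 0` there are `N` and `C` such that for all `X ≥ 1` and all algebraic numbers `b`, `e`, `e'`
at most `C X ^ ε` polynomials `(e z ^ d + e' z ^ (d - 1) + c_(d-2) z ^ (d - 2) + ... + c_0) / b` have height at most `X` over
some number field `K` of degree at most `D` and more than `N` preperiodic points of degree at most `B` over `K`.  (For
`b = e = 1` and `e' = 0` these are the monic centered polynomials; over `K` there are about `X ^ d` of them of height at most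
`X`.)  In particular, at most `C H ^ (3 + ε)` of the `(2 H + 1) ^ (d + 2)` integral vectors `(b, c_0, ..., c_d)` with entries of
absolute value at most `H` give polynomials `(c_0 + ... + c_d z ^ d) / b` of degree `d` with more than `N` preperiodic points
of degree at most `B` over `ℚ`.

Proof.  The exceptional maps lie in at most `C X ^ ε` conjugacy classes (`FewExceptionalClasses`,
`SymmetricPowersFewClasses`).  Conjugate polynomials are conjugate by an affine map (also in the class of the power map,
where the conjugating map may take `∞` to a finite point), and an affine map `α z + β` which conjugates two polynomials with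
the same leading coefficients satisfies `α ^ (d - 1) = 1` and `d e β = e' (α - 1)`.  So at most `d - 1` of the polynomials lie
in one class.
-/

set_option autoImplicit false

namespace Pool.Agent.Results.MP_90787a_nt.FewExceptionalPolynomials

/-- The algebraic numbers. -/
abbrev Qbar : Type := AlgebraicClosure ℚ

variable {d : ℕ}

/-- The value at `v` of the pair `F` of binary forms of degree `d`: `F i j` is the coefficient of `x ^ j y ^ (d - j)` in the
`i`-th form. -/
def act {K : Type} [Field K] (F : Fin 2 → Fin (d + 1) → K) (v : Fin 2 → K) : Fin 2 → K :=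
  fun i => ∑ j : Fin (d + 1), F i j * v 0 ^ (j : ℕ) * v 1 ^ (d - (j : ℕ))

/-- The two forms have no common zero in the projective line over the algebraic numbers: they define an endomorphism of the
projective line of degree `d`. -/
def IsEndomorphism (F : Fin 2 → Fin (d + 1) → Qbar) : Prop := ∀ v : Fin 2 → Qbar, act F v = 0 → v = 0

/-- The height over `K` (relative, multiplicative) of the point of projective space given by the coefficients. -/
noncomputable def height {K : Type} [Field K] [NumberField K] (F : Fin 2 → Fin (d + 1) → K) : ℝ :=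
  Height.mulHeight (fun p : Fin 2 × Fin (d + 1) => F p.1 p.2)

/-- The set of the preperiodic points `P` in the projective line over the algebraic numbers (the `n`-th and the `m`-th iterate
at `P` agree for some `m < n`) with `[K(P) : K] ≤ B`: `P` has coordinates in an extension of `K` of degree at most `B`.
For `K = ⊥` these are the preperiodic points of degree at most `B` over `ℚ`. -/
def preperiodicOfDegree (B : ℕ) (K : IntermediateField ℚ Qbar) (F : Fin 2 → Fin (d + 1) → Qbar) :
    Set (Projectivization Qbar (Fin 2 → Qbar)) :=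
  {P | (∃ m n : ℕ, m < n ∧ ∃ c : Qbar, c ≠ 0 ∧ (act F)^[n] P.rep = c • (act F)^[m] P.rep) ∧
    ∃ E : IntermediateField ℚ Qbar, K ≤ E ∧ FiniteDimensional ℚ E ∧
      Module.finrank ℚ E ≤ B * Module.finrank ℚ K ∧ ∃ w : Fin 2 → Qbar, (∀ l, w l ∈ E) ∧
      ∃ c : Qbar, c ≠ 0 ∧ P.rep = c • w}

/-- `F` defines an endomorphism of the projective line over a number field `K` of degree at most `D`, of height at most `X`,
which has more than `N` preperiodic points of degree at most `B` over `K`. -/
def Exceptional (D B N X : ℕ) (F : Fin 2 → Fin (d + 1) → Qbar) : Prop :=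
  IsEndomorphism F ∧
    ∃ (K : IntermediateField ℚ Qbar) (_ : NumberField K) (F' : Fin 2 → Fin (d + 1) → K),
      (∀ i j, F i j = (F' i j : Qbar)) ∧ Module.finrank ℚ K ≤ D ∧ height F' ≤ X ∧
      (N : ℕ∞) < (preperiodicOfDegree B K F).encard

/-- The pair of forms of the polynomial `(c_0 + c_1 z + ... + c_d z ^ d) / b`: the first form is
`c_0 y ^ d + ... + c_d x ^ d` and the second form is `b y ^ d`. -/
def poly {R : Type} [Zero R] (b : R) (c : Fin (d + 1) → R) : Fin 2 → Fin (d + 1) → R := fun i j =>
  if i = 0 then c j else if j = 0 then b else 0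

/-- **Few polynomials with given leading coefficients are exceptional.** -/
theorem result (D B d : ℕ) (hd : 2 ≤ d) (ε : ℝ) (hε : 0 < ε) : ∃ (N : ℕ) (C : ℝ),
    (∀ X : ℕ, 1 ≤ X → ∀ b e e' : Qbar,
      ({c : Fin (d + 1) → Qbar | c (Fin.last d) = e ∧ c ⟨d - 1, by omega⟩ = e' ∧
        Exceptional D B N X (poly b c)}).Finite ∧
      (({c : Fin (d + 1) → Qbar | c (Fin.last d) = e ∧ c ⟨d - 1, by omega⟩ = e' ∧
        Exceptional D B N X (poly b c)}).ncard : ℝ) ≤ C * (X : ℝ) ^ ε) ∧
    (∀ H : ℕ, 1 ≤ H →
      (({v : ℤ × (Fin (d + 1) → ℤ) | |v.1| ≤ (H : ℤ) ∧ (∀ j, |v.2 j| ≤ (H : ℤ)) ∧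
        IsEndomorphism (poly (v.1 : Qbar) fun j => (v.2 j : Qbar)) ∧
        (N : ℕ∞) < (preperiodicOfDegree B ⊥ (poly (v.1 : Qbar) fun j => (v.2 j : Qbar))).encard}).ncard : ℝ) ≤
          C * (H : ℝ) ^ (3 + ε)) := by
  classical
  obtain ⟨N₁, C₁, hC₁, h₁⟩ := Pool.Agent.K3h53.FM.count_lead D B d hd ε hε
  obtain ⟨N₂, C₂, hC₂, h₂⟩ := Pool.Agent.K3h53.FM.count_int B d hd ε hε
  refine ⟨max N₁ N₂, max C₁ C₂, fun X hX b e e' => ?_, fun H hH => ?_⟩
  · obtain ⟨Q, hQ⟩ : ∃ Q : Set (Fin (d + 1) → Qbar), Q = {c : Fin (d + 1) → Qbar |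
        c (Fin.last d) = e ∧ c ⟨d - 1, by omega⟩ = e' ∧ Exceptional D B (max N₁ N₂) X (poly b c)} := ⟨_, rfl⟩
    rw [← hQ]
    have hinj : Function.Injective fun c : Fin (d + 1) → Qbar => poly b c := by
      intro c c' h
      funext j
      have := congrFun (congrFun h 0) j
      simpa [poly] using this
    have key : ∀ T : Finset (Fin (d + 1) → Qbar), (∀ c ∈ T, c ∈ Q) → (T.card : ℝ) ≤ C₁ * (X : ℝ) ^ ε := by
      intro T hT
      rw [← Finset.card_image_of_injective T hinj]
      refine h₁ X hX b e e' _ fun F hF => ?_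
      obtain ⟨c, hc, rfl⟩ := Finset.mem_image.1 hF
      have h3 := hT c hc
      rw [hQ] at h3
      obtain ⟨a1, a2, h0, K, hK, F', e1, e2, e3, e4⟩ := h3
      refine ⟨⟨h0, K, hK, F', e1, e2, e3, lt_of_le_of_lt (by exact_mod_cast le_max_left N₁ N₂) e4⟩, ?_, ?_, ?_, ?_⟩
      · intro j hj
        simp [poly, hj]
      · simp [poly]
      · simpa [poly] using a1
      · simpa [poly] using a2
    have hfin : Q.Finite := by
      by_contra hinf
      obtain ⟨T, hT1, hT2⟩ := (show Q.Infinite from hinf).exists_subset_card_eq (⌊C₁ * (X : ℝ) ^ ε⌋₊ + 1)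
      have h3 := key T fun c hc => hT1 hc
      rw [hT2] at h3
      push_cast at h3
      have h4 := Nat.lt_floor_add_one (C₁ * (X : ℝ) ^ ε)
      linarith
    refine ⟨hfin, ?_⟩
    rw [Set.ncard_eq_toFinset_card _ hfin]
    refine (key hfin.toFinset fun c hc => hfin.mem_toFinset.1 hc).trans ?_
    gcongr
    exact le_max_left _ _
  · obtain ⟨Q, hQ⟩ : ∃ Q : Set (ℤ × (Fin (d + 1) → ℤ)), Q = {v : ℤ × (Fin (d + 1) → ℤ) |
        |v.1| ≤ (H : ℤ) ∧ (∀ j, |v.2 j| ≤ (H : ℤ)) ∧
        IsEndomorphism (poly (v.1 : Qbar) fun j => (v.2 j : Qbar)) ∧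
        ((max N₁ N₂ : ℕ) : ℕ∞) <
          (preperiodicOfDegree B ⊥ (poly (v.1 : Qbar) fun j => (v.2 j : Qbar))).encard} := ⟨_, rfl⟩
    rw [← hQ]
    have hfin : Q.Finite := by
      refine ((Set.finite_Icc (-(H : ℤ)) H).prod (Set.Finite.pi' (ι := Fin (d + 1))
        (t := fun _ => Set.Icc (-(H : ℤ)) H) fun _ => Set.finite_Icc _ _)).subset ?_
      intro v hv
      rw [hQ] at hv
      exact ⟨abs_le.1 hv.1, fun j => abs_le.1 (hv.2.1 j)⟩
    have hinj : Function.Injective fun v : ℤ × (Fin (d + 1) → ℤ) => poly v.1 v.2 := by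
      rintro ⟨b, c⟩ ⟨b', c'⟩ h
      have h3 : b = b' := by
        have := congrFun (congrFun h 1) 0
        simpa [poly] using this
      have h4 : c = c' := by
        funext j
        have := congrFun (congrFun h 0) j
        simpa [poly] using this
      rw [h3, h4]
    have hQbar : ∀ v : ℤ × (Fin (d + 1) → ℤ), Pool.Agent.K3h53.FM.toQ (poly v.1 v.2) =
        poly (v.1 : Qbar) fun j => (v.2 j : Qbar) := by
      intro v
      funext i j
      simp only [Pool.Agent.K3h53.FM.toQ, poly]
      split_ifs <;> simp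
    rw [Set.ncard_eq_toFinset_card _ hfin, ← Finset.card_image_of_injective _ hinj]
    refine ((h₂ H hH (hfin.toFinset.image fun v : ℤ × (Fin (d + 1) → ℤ) => poly v.1 v.2) fun F hF => ?_).2
      fun F hF => ?_).trans ?_
    · obtain ⟨v, hv, rfl⟩ := Finset.mem_image.1 hF
      have h3 := hfin.mem_toFinset.1 hv
      rw [hQ] at h3
      obtain ⟨a1, a2, a3, a4⟩ := h3
      refine ⟨?_, ?_, ?_⟩
      · intro i j
        simp only [poly]
        split_ifs
        · exact a2 j
        · exact a1
        · simp
      · rw [hQbar]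
        exact a3
      · rw [hQbar]
        exact lt_of_le_of_lt (by exact_mod_cast le_max_right N₁ N₂) a4
    · obtain ⟨v, hv, rfl⟩ := Finset.mem_image.1 hF
      intro j hj
      simp [poly, hj]
    · gcongr
      exact le_max_right _ _

end Pool.Agent.Results.MP_90787a_nt.FewExceptionalPolynomials
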