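import Mathlib
import Pool.Agent.K3h68.UP.Glob

/-!
# MP_90787a_nt: the number of preperiodic points, potentially good reduction outside `S`

Let `K` be a number field of degree `D`, `S` a finite set of finite places of `K`, `s = |S|`, and
`f = [F : G]` a self-map of the projective line over `K` of any degree `d ≥ 2` with potentially good
reduction (`Pool.Agent.H892.PGK.PotGood`) at all finite places outside `S`; nothing is assumed at
the places of `S`.  There is a constant `C` depending only on `D` such that with `B = C ^ (s + 1)`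

1. `f` has at most `3 (B + 1) d ^ 2` strictly preperiodic points in `ℙ¹(K)`,
2. at most `4 B` of them if there are at least four periodic points in `ℙ¹(K)`,
3. at most `B + 3` periodic points in `ℙ¹(K)` if there are at least three strictly preperiodic
   points in `ℙ¹(K)`,
4. always at most `3 + B ^ 2 (d ^ B + 2)` periodic points,
5. altogether at most `d ^ (14 B)` preperiodic points in `ℙ¹(K)`,
6. at most `4 B + 6 d` strictly preperiodic points in `ℙ¹(K)` whose orbit contains no fixed point.

Proof.  At a place `v` outside `S` the chordal distance in the good coordinates does not increase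
under `f`, and it is rigid: `br (Φ u) (Φ w) = br u w * H u w` with `H` integral and Lipschitz, so if
the distance of `x` and `y` is preserved then so is that of `x` and each `z` with distance `< 1` from
`y`.  Hence a strictly preperiodic point has distance `1` from all periodic points but one (its
shadow), and two strictly preperiodic points of different levels with different shadows have
distance `1`.  The number of the points whose distances from three points have given ratios at all
places outside `S` is at most `B`: these points correspond to elements `x` of `K` such that `x` and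
`x + 1` have given absolute values outside `S` (a unit equation with coefficients; the bound is
uniform in the field and in the coefficients).  For 4: the coordinates of `f^k Q` with respect to
`f^k A₁, f^k A₂, f^k A₃`, `k = 0, …, B`, lie in one class, so two of them coincide, and then `f^m`
agrees with a Möbius transformation at `f^k Q`.
-/

set_option autoImplicit false

open MvPolynomial
open Pool.Agent.H892.PGK (PotGood PP)
open Pool.Agent.K3h68.UP
open NumberField IsDedekindDomain

namespace Pool.Agent.Results.MP_90787a_nt.FewTailPoints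

/-- the forms `F`, `G` of the same degree have no common zero -/
def NoZero {K : Type} [Field K] (F G : MvPolynomial (Fin 2) K) : Prop :=
  ∀ x : Fin 2 → AlgebraicClosure K, x ≠ 0 → ¬ (aeval x F = 0 ∧ aeval x G = 0)

/-- `x` is a periodic point -/
def Periodic {K : Type} [Field K] (F G : MvPolynomial (Fin 2) K)
    (x : Projectivization K (Fin 2 → K)) : Prop :=
  ∃ (v : Fin 2 → K) (hv : v ≠ 0), Projectivization.mk K v hv = x ∧ ∃ n : ℕ, 0 < n ∧
    ∃ c : K, c ≠ 0 ∧ (fun w : Fin 2 → K => ![eval w F, eval w G])^[n] v = c • v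

/-- `x` is a preperiodic point -/
def Preperiodic {K : Type} [Field K] (F G : MvPolynomial (Fin 2) K)
    (x : Projectivization K (Fin 2 → K)) : Prop :=
  ∃ (v : Fin 2 → K) (hv : v ≠ 0), Projectivization.mk K v hv = x ∧ ∃ m n : ℕ, m < n ∧
    ∃ c : K, c ≠ 0 ∧ (fun w : Fin 2 → K => ![eval w F, eval w G])^[n] v =
      c • (fun w : Fin 2 → K => ![eval w F, eval w G])^[m] v

/-- the orbit of `x` contains no fixed point -/
def NoFixed {K : Type} [Field K] (F G : MvPolynomial (Fin 2) K)
    (x : Projectivization K (Fin 2 → K)) : Prop :=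
  ∀ (v : Fin 2 → K) (hv : v ≠ 0), Projectivization.mk K v hv = x → ∀ n : ℕ,
    ¬ ∃ c : K, c ≠ 0 ∧ (fun w : Fin 2 → K => ![eval w F, eval w G])^[n + 1] v =
      c • (fun w : Fin 2 → K => ![eval w F, eval w G])^[n] v

lemma total {d B : ℕ} (hd : 2 ≤ d) (hB : 1 ≤ B) :
    3 + B ^ 2 * (d ^ B + 2) + 3 * (B + 1) * d ^ 2 ≤ d ^ (14 * B) := by
  have h1 : B ≤ d ^ B := (Nat.lt_pow_self (by omega)).le
  have h2 : d ^ 1 ≤ d ^ B := Nat.pow_le_pow_right (by omega) hB
  set y := d ^ B with hy
  have h3 : 2 ≤ y := by rw [pow_one] at h2; omega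
  have h4 : d ≤ y := by rw [pow_one] at h2; exact h2
  have h5 : d ^ (14 * B) = y ^ 14 := by rw [hy, ← pow_mul, mul_comm]
  rw [h5]
  have h6 : B ^ 2 ≤ y ^ 2 := Nat.pow_le_pow_left h1 2
  have h7 : d ^ 2 ≤ y ^ 2 := Nat.pow_le_pow_left h4 2
  have e1 : B ^ 2 * (y + 2) ≤ y ^ 2 * (y + y) := Nat.mul_le_mul h6 (by omega)
  have e2 : 3 * (B + 1) * d ^ 2 ≤ 3 * (y + y) * y ^ 2 := Nat.mul_le_mul (by omega) h7
  have e3 : 1 ≤ y ^ 3 := Nat.one_le_pow _ _ (by omega)
  have e4 : (2 : ℕ) ^ 11 ≤ y ^ 11 := Nat.pow_le_pow_left h3 11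
  have e5 : y ^ 14 = y ^ 3 * y ^ 11 := by ring
  calc 3 + B ^ 2 * (y + 2) + 3 * (B + 1) * d ^ 2
      ≤ 3 * y ^ 3 + y ^ 2 * (y + y) + 3 * (y + y) * y ^ 2 := by omega
    _ = 11 * y ^ 3 := by ring
    _ ≤ y ^ 3 * 2 ^ 11 := by omega
    _ ≤ y ^ 14 := by rw [e5]; exact Nat.mul_le_mul_left _ e4

theorem result (D : ℕ) : ∃ C : ℕ, 1 ≤ C ∧ ∀ (K : Type) [Field K] [NumberField K],
    Module.finrank ℚ K = D → ∀ (S : Finset (HeightOneSpectrum (𝓞 K))) (B : ℕ),
    B = C ^ (S.card + 1) → ∀ (d : ℕ), 2 ≤ d → ∀ F G : MvPolynomial (Fin 2) K,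
    F.IsHomogeneous d → G.IsHomogeneous d → NoZero F G →
    (∀ v : HeightOneSpectrum (𝓞 K), v ∉ S →
      PotGood (NumberField.HeightOneSpectrum.adicAbv K v) F G d) →
    (∀ T : Finset (Projectivization K (Fin 2 → K)),
      (∀ x ∈ T, Preperiodic F G x ∧ ¬ Periodic F G x) → T.card ≤ 3 * (B + 1) * d ^ 2) ∧
    ((∃ P : Finset (Projectivization K (Fin 2 → K)), P.card = 4 ∧ ∀ x ∈ P, Periodic F G x) →
      ∀ T : Finset (Projectivization K (Fin 2 → K)),
        (∀ x ∈ T, Preperiodic F G x ∧ ¬ Periodic F G x) → T.card ≤ 4 * B) ∧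
    ((∃ T : Finset (Projectivization K (Fin 2 → K)), T.card = 3 ∧
        ∀ x ∈ T, Preperiodic F G x ∧ ¬ Periodic F G x) →
      ∀ P : Finset (Projectivization K (Fin 2 → K)), (∀ x ∈ P, Periodic F G x) →
        P.card ≤ B + 3) ∧
    (∀ P : Finset (Projectivization K (Fin 2 → K)), (∀ x ∈ P, Periodic F G x) →
      P.card ≤ 3 + B ^ 2 * (d ^ B + 2)) ∧
    (∀ Q : Finset (Projectivization K (Fin 2 → K)), (∀ x ∈ Q, Preperiodic F G x) →
      Q.card ≤ d ^ (14 * B)) ∧
    (∀ T : Finset (Projectivization K (Fin 2 → K)),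
      (∀ x ∈ T, Preperiodic F G x ∧ ¬ Periodic F G x ∧ NoFixed F G x) →
        T.card ≤ 4 * B + 6 * d) := by
  classical
  obtain ⟨C, hC, hcls⟩ := cls_nat D
  refine ⟨C, hC, ?_⟩
  intro K _ _ hK S B hB d hd F G hF hG hz hp
  have hBc := hcls K hK S
  rw [← hB] at hBc
  have h0 := h0_of hz
  obtain ⟨Y, hne, hle, hrig, hc⟩ := exists_sys
    (fun v : {v : HeightOneSpectrum (𝓞 K) // v ∉ S} =>
      NumberField.HeightOneSpectrum.adicAbv K v.1) h0 (fun v => hp v.1 v.2)
  have hfib := fib_le (by omega : 1 ≤ d) hF hG hz h0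
  have hper : ∀ x, Periodic F G x ↔ x ∈ Function.periodicPts
      (Pool.Agent.H892.PGK.fX F G h0) := perPt_iff hF hG h0
  have hpre : ∀ x, Preperiodic F G x ↔ ∃ k, (Pool.Agent.H892.PGK.fX F G h0)^[k] x ∈
      Function.periodicPts (Pool.Agent.H892.PGK.fX F G h0) := prePt_iff hF hG h0
  have htail : ∀ x, (Preperiodic F G x ∧ ¬ Periodic F G x) →
      TailPt (Pool.Agent.H892.PGK.fX F G h0) x := by
    intro x hx
    rw [hper, hpre] at hx
    exact ⟨hx.2, hx.1⟩
  have g1 : ∀ T : Finset (Projectivization K (Fin 2 → K)),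
      (∀ x ∈ T, Preperiodic F G x ∧ ¬ Periodic F G x) → T.card ≤ 3 * (B + 1) * d ^ 2 :=
    fun T hT => tails_card hBc hne hle hrig hd hfib T fun x hx => htail x (hT x hx)
  have g4 : ∀ P : Finset (Projectivization K (Fin 2 → K)), (∀ x ∈ P, Periodic F G x) →
      P.card ≤ 3 + B ^ 2 * (d ^ B + 2) :=
    fun P hP => per_count hd hF hG hz h0 hc hBc hne P fun x hx => (hper x).1 (hP x hx)
  refine ⟨g1, ?_, ?_, g4, ?_, ?_⟩
  · rintro ⟨P, hPc, hP⟩ T hT
    exact tails_four hBc hne hle hrig (fun i => ((P.equivFinOfCardEq hPc).symm i : _))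
      (fun i j hij => (P.equivFinOfCardEq hPc).symm.injective (Subtype.ext hij))
      (fun i => (hper _).1 (hP _ ((P.equivFinOfCardEq hPc).symm i).2)) T
      (fun x hx => htail x (hT x hx))
  · rintro ⟨T, hTc, hT⟩ P hP
    obtain ⟨x, y, z, hxy, hxz, hyz, rfl⟩ := Finset.card_eq_three.1 hTc
    exact per_three hBc hne hle hrig (htail x (hT x (by simp))) (htail y (hT y (by simp)))
      (htail z (hT z (by simp))) hxy hxz hyz P fun x hx => (hper x).1 (hP x hx)
  · intro Q hQ
    have hB1 : 1 ≤ B := by rw [hB]; exact Nat.one_le_pow _ _ hC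
    have hsplit := Finset.card_filter_add_card_filter_not (s := Q) (fun x => Periodic F G x)
    have a1 := g4 (Q.filter (fun x => Periodic F G x)) fun x hx => (Finset.mem_filter.1 hx).2
    have a2 := g1 (Q.filter (fun x => ¬ Periodic F G x)) fun x hx =>
      ⟨hQ x (Finset.mem_filter.1 hx).1, (Finset.mem_filter.1 hx).2⟩
    have a3 := total hd hB1
    omega
  · intro T hT
    refine tails_card_cycle hBc hne hle hrig hfib T fun x hx => ?_
    obtain ⟨h1, h2, h3⟩ := hT x hx
    exact ⟨htail x ⟨h1, h2⟩, no_fix hF hG h0 x h3⟩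

end Pool.Agent.Results.MP_90787a_nt.FewTailPoints
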