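import Mathlib
import Pool.Agent.K3h24.UB.Rand

/-!
# Uniform boundedness for almost all sets of bad primes, up to the preperiodic points which lead to
at most three periodic points

Let `K` be a number field. For every `ε > 0` there is ONE number `N` such that for all `X ≥ 1` all
but a proportion `ε` of the nonzero ideals `I` of norm at most `X` have the following property: for
every rational map `f` over `K` of ANY degree `d ≥ 2` with potentially good reduction at all primes
which do not divide `I`

* the cycles of `f` in `ℙ¹(K)` have length at most `N`, and there are at most `d ^ N` periodic points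
  in `ℙ¹(K)`;
* there is a set `E` of at most three periodic points such that at most `d ^ N` preperiodic points of
  `ℙ¹(K)` do not lead to `E`, and at most `N` of these have a tail of length more than three; one can
  take a set `E` of at most two points unless `f` has exactly three periodic points in `ℙ¹(K)`;
* if there is a cycle whose length `n > 3` is not a power of two then there are at most `N` strictly
  preperiodic points in `ℙ¹(K)` at all; and if there is a cycle of length three then at most `N`
  strictly preperiodic points do not lead to this cycle.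

The same holds for any set `S` of primes in place of the primes dividing `I`, finite or infinite,
with finitely many exceptional units, with an `N` which depends on nothing but the number of the
exceptional units of `S` (the `x ≠ 0, 1`
such that `x` and `1 - x` are units outside `S`) and on the norms of two primes outside `S` of
different residue characteristics; the field, the degree and the number of the elements of `S` do
not enter.

Proof. Let `v` be a place of potentially good reduction. If a residue disc contains two periodic
points then `f` is isometric on it, so that a strictly preperiodic point is at distance one from all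
periodic points except one, its shadow. Hence strictly preperiodic points with different shadows and
different tail lengths are at distance one from each other, and tails of length at least three
leading to three or more periodic points produce four points at mutual distance one at all
`v ∉ S`. Every further point is at distance one from three of them, and its cross-ratio with these
is an exceptional unit. In a cycle whose length is divisible by an odd prime there are triples with
equal mutual distances, to which the same applies. The lengths of the cycles are bounded with two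
primes of potentially good reduction as by Morton and Silverman. The number of the exceptional units
of `𝓞_K[1 / I]` is bounded on average over `I`, from the number `X ^ (2 / 3 + o(1))` of the `x ∈ K` of
all heights with radical at most `X` (starting files, `Pool.Agent.Y728.mainK`).
-/

set_option autoImplicit false

namespace Pool.Agent.Results.MP_90787a_nt.RandomBadPrimes

open NumberField IsDedekindDomain Function MvPolynomial
open Pool.Agent.H892.PGK (PotGood)

/-- the self-map `[F : G]` of the projective line over `K` given by two forms without a common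
zero -/
noncomputable def selfMap {K : Type} [Field K] (F G : MvPolynomial (Fin 2) K)
    (P : Projectivization K (Fin 2 → K)) : Projectivization K (Fin 2 → K) := by
  classical
  exact if h : (![eval P.rep F, eval P.rep G] : Fin 2 → K) ≠ 0 then
    Projectivization.mk K ![eval P.rep F, eval P.rep G] h else P

/-- `P` is preperiodic: some iterate is periodic -/
def Preperiodic {X : Type} (f : X → X) (P : X) : Prop := ∃ k, f^[k] P ∈ periodicPts f

/-- `P` leads to the set `E` -/
def LeadsTo {X : Type} (f : X → X) (E : Set X) (P : X) : Prop := ∃ k, f^[k] P ∈ E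

variable {K : Type} [Field K] [NumberField K]

/-- the exceptional units of a set `S` of primes: the `x ≠ 0, 1` such that `x` and `1 - x` are units
at all primes outside `S` -/
def ExceptionalUnits (S : Set (HeightOneSpectrum (𝓞 K))) : Set K :=
  {x | x ≠ 0 ∧ x ≠ 1 ∧ ∀ v, v ∉ S → v.valuation K x = 1 ∧ v.valuation K (1 - x) = 1}

/-- the bounds with the number `N` for all rational maps over `K` with potentially good reduction
outside `S` -/
def Bounded (S : Set (HeightOneSpectrum (𝓞 K))) (N : ℕ) : Prop :=
  ∀ d : ℕ, 2 ≤ d → ∀ F G : MvPolynomial (Fin 2) K, F.IsHomogeneous d → G.IsHomogeneous d →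
    (∀ x : Fin 2 → AlgebraicClosure K, x ≠ 0 → ¬ (aeval x F = 0 ∧ aeval x G = 0)) →
    (∀ v ∉ S, PotGood (NumberField.HeightOneSpectrum.adicAbv K v) F G d) →
    let f := selfMap F G
    -- the periodic points
    (∀ P ∈ periodicPts f, minimalPeriod f P ≤ N) ∧
    (periodicPts f).encard ≤ ((d ^ N : ℕ) : ℕ∞) ∧
    -- the preperiodic points which do not lead to a set of at most three periodic points
    (∃ E ⊆ periodicPts f, E.encard ≤ 3 ∧ (E.encard ≤ 2 ∨ (periodicPts f).encard = 3) ∧
      {P | Preperiodic f P ∧ ¬ LeadsTo f E P ∧ f^[3] P ∉ periodicPts f}.encard ≤ (N : ℕ∞) ∧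
      {P | Preperiodic f P ∧ ¬ LeadsTo f E P}.encard ≤ ((d ^ N : ℕ) : ℕ∞)) ∧
    -- the strictly preperiodic points, if there is a cycle whose length is not a power of two
    (∀ Q, 3 < minimalPeriod f Q → (∀ k, minimalPeriod f Q ≠ 2 ^ k) →
      {P | Preperiodic f P ∧ P ∉ periodicPts f}.encard ≤ (N : ℕ∞)) ∧
    (∀ Q, minimalPeriod f Q = 3 →
      {P | Preperiodic f P ∧ P ∉ periodicPts f ∧ ¬ LeadsTo f {Q} P}.encard ≤ (N : ℕ∞))

/-- the nonzero ideals of norm at most `X` -/
def Ideals (K : Type) [Field K] [NumberField K] (X : ℝ) : Set (Ideal (𝓞 K)) :=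
  {I | I ≠ ⊥ ∧ (Ideal.absNorm I : ℝ) ≤ X}

section Aux

open Pool.Agent.K3h24.UB Pool.Agent.H892.PGK
open Pool.Agent.H892.PGR (br Phi)

omit [NumberField K] in
theorem selfMap_eq {F G : MvPolynomial (Fin 2) K} (h : ∀ v : Fin 2 → K, v ≠ 0 → Phi F G v ≠ 0) :
    selfMap F G = fX F G h := by
  funext P
  unfold selfMap fX
  have h1 : (![eval P.rep F, eval P.rep G] : Fin 2 → K) ≠ 0 := h _ P.rep_nonzero
  rw [dif_pos h1]
  rfl

theorem bounded_of {S : Set (HeightOneSpectrum (𝓞 K))} {N : ℕ}
    (h : ∀ d : ℕ, 2 ≤ d → ∀ F G : MvPolynomial (Fin 2) K, F.IsHomogeneous d → G.IsHomogeneous d →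
      (∀ x : Fin 2 → AlgebraicClosure K, x ≠ 0 → ¬ (aeval x F = 0 ∧ aeval x G = 0)) →
      (∀ v ∉ S, PotGood (NumberField.HeightOneSpectrum.adicAbv K v) F G d) →
      ∀ h : (∀ v : Fin 2 → K, v ≠ 0 → Phi F G v ≠ 0), Concl (fX F G h) d N) : Bounded S N := by
  intro d hd F G hF hG hz hp
  have h0 : ∀ v : Fin 2 → K, v ≠ 0 → Phi F G v ≠ 0 := by
    intro v hv hz'
    apply nz_rat hz v hv
    rw [aev, aev]
    exact ⟨congrFun hz' 0, congrFun hz' 1⟩
  obtain ⟨c1, c2, ⟨E, e1, e2, e3, e4, e5⟩, c4, c5⟩ := h d hd F G hF hG hz hp h0
  intro f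
  have hf : f = fX F G h0 := selfMap_eq h0
  rw [hf]
  refine ⟨c1, c2, ⟨E, e1, e2, e3, ?_, ?_⟩, ?_, ?_⟩
  · refine (Set.encard_le_encard ?_).trans e4
    rintro P ⟨p1, p2, p3⟩
    exact ⟨p1, fun k hk => p2 ⟨k, hk⟩, p3⟩
  · refine (Set.encard_le_encard ?_).trans e5
    rintro P ⟨p1, p2⟩
    exact ⟨p1, fun k hk => p2 ⟨k, hk⟩⟩
  · intro Q q1 q2
    refine (Set.encard_le_encard ?_).trans (c4 Q q1 q2)
    rintro P ⟨p1, p2⟩
    exact ⟨p1, p2⟩
  · intro Q q1
    refine (Set.encard_le_encard ?_).trans (c5 Q q1)
    rintro P ⟨p1, p2, p3⟩
    exact ⟨p1, p2, fun k hk => p3 ⟨k, hk⟩⟩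

end Aux

/-- 1. For all `M` and `q` there is `N` such that `Bounded S N` holds for every number field `K` and
every set `S` of primes of `K` which has at most `M` exceptional units and such that there are two
primes outside `S` with coprime norms at most `q`. 2. For every number field `K` and every `ε > 0`
there is `N` such that for all `X ≥ 1` the bounds `Bounded {v : v ∣ I} N` hold for all but a
proportion `ε` of the nonzero ideals `I` of norm at most `X`. -/
theorem result :
    (∀ M q : ℕ, ∃ N : ℕ, ∀ (K : Type) [Field K] [NumberField K]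
      (S : Set (HeightOneSpectrum (𝓞 K))), (ExceptionalUnits S).encard ≤ (M : ℕ∞) →
      (∃ v ∉ S, ∃ w ∉ S, Ideal.absNorm v.asIdeal ≤ q ∧ Ideal.absNorm w.asIdeal ≤ q ∧
        Nat.Coprime (Ideal.absNorm v.asIdeal) (Ideal.absNorm w.asIdeal)) →
      Bounded S N) ∧
    (∀ (K : Type) [Field K] [NumberField K] (ε : ℝ), 0 < ε → ∃ N : ℕ, ∀ X : ℝ, 1 ≤ X →
      ∃ B ⊆ Ideals K X, (B.ncard : ℝ) ≤ ε * (Ideals K X).ncard ∧
        ∀ I ∈ Ideals K X, I ∉ B →
          Bounded {v : HeightOneSpectrum (𝓞 K) | v.asIdeal ∣ I} N) := by
  have h1 : ∀ M q : ℕ, ∃ N : ℕ, ∀ (K : Type) [Field K] [NumberField K]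
      (S : Set (HeightOneSpectrum (𝓞 K))), (ExceptionalUnits S).encard ≤ (M : ℕ∞) →
      (∃ v ∉ S, ∃ w ∉ S, Ideal.absNorm v.asIdeal ≤ q ∧ Ideal.absNorm w.asIdeal ≤ q ∧
        Nat.Coprime (Ideal.absNorm v.asIdeal) (Ideal.absNorm w.asIdeal)) →
      Bounded S N := by
    intro M q
    obtain ⟨N, hN⟩ := Pool.Agent.K3h24.UB.det M q
    exact ⟨N, fun K _ _ S hM hv => bounded_of (hN K S hM hv)⟩
  refine ⟨h1, ?_⟩
  intro K _ _ ε hε
  obtain ⟨M, q, hr⟩ := Pool.Agent.K3h24.UB.random K ε hε
  obtain ⟨N, hN⟩ := h1 M q
  refine ⟨N, fun X hX => ?_⟩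
  obtain ⟨B, hB1, hB2, hB3⟩ := hr X hX
  refine ⟨B, hB1, hB2, fun I hI hIB => ?_⟩
  obtain ⟨k1, k2⟩ := hB3 I hI hIB
  exact hN K _ k1 k2

end Pool.Agent.Results.MP_90787a_nt.RandomBadPrimes
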